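import Pool.Agent.X307.Vo.Prod

/-!
# Voisin's conjecture for products of curves and their quotients
-/

open CategoryTheory AlgebraicGeometry

universe u v w

namespace Pool.Agent.Results.MP_83b46e_ag.ProductsOfCurves

open Pool.Agent.H914 VarClass Obj Pool.Agent.W492.BB Pool.Agent.TH133 Pool.Agent.X307.Vo

/-- **Theorem.**
1. Let `S` be a variety whose Albanese kernel comes from a product of two curves, in pieces of
   symmetric dimensions `g_j` and `h_j` (for example a smooth projective surface birational to
   `(D × E) / G`, where `G ≅ (ℤ/2)^r` acts on the curves `D` and `E`, with the pieces indexed by the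
   characters `χ` of `G` and `g_χ`, `h_χ` the dimensions of the `χ`-parts of the differential forms,
   so that `p_g(S) = ∑ g_χ h_χ`). Then Voisin's conjecture holds for `S` and all `n > ∑ g_j h_j`:
   `∑_σ sgn(σ) a_{σ(1)} × ⋯ × a_{σ(n)} = 0` in `CH(S^n)_ℚ` for all `a_1, …, a_n` in the Albanese
   kernel.
2. Let `D` and `E` be curves of genus `g` and `h` such that the zero-cycles of `D × E` are sums of
   external products. Then Voisin's conjecture holds for the surface `D × E` and all `n > g h`
   (`g h` is the geometric genus of `D × E`). -/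
theorem result {k : Type u} [Field k] {𝒱 : VarClass k} (C : TheoryData.{u, v, 0} 𝒱 ℚ)
    [IsChowProj C] :
    (∀ (S : 𝒱.Obj) (m : ℕ) (g h : Fin m → ℕ), ComesFromCurves C S g h →
      ∀ n : ℕ, ∑ j, g j * h j < n → VoisinHolds C S n) ∧
    (∀ (D E : 𝒱.Obj) (g h : ℕ), IsCurveOfGenus C D g → IsCurveOfGenus C E h →
      PointsAreProducts C D E → ∀ n : ℕ, g * h < n → VoisinHolds C (D.prod E) n) :=
  ⟨fun _ _ _ _ hS _ hn => voisin_of_curves hS hn,
    fun _ _ _ _ hD hE hp _ hn => voisin_prod hD hE hp hn⟩

end Pool.Agent.Results.MP_83b46e_ag.ProductsOfCurves
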