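import Pool.Agent.X310.Voi

/-!
# `MP_83b46e_ag`: Voisin's conjecture for surfaces whose zero-cycles are a sum of pieces

If the Albanese-trivial zero-cycles of `S` are the sum of subspaces `W k` and the alternating
relation holds on `W k` for `g k + 1` cycles, then it holds on `S` for `n > ∑ g k` cycles.  For a
Galois cover `S → T` with group `(ℤ/2)^m` of a surface with `p_g = 0` and trivial Albanese kernel,
the `W k` are the pullbacks from the intermediate double covers and `p_g` is additive.
-/

set_option autoImplicit false

namespace Pool.Agent.Results.MP_83b46e_ag.SumsOfPieces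

open Pool.Agent.X310.Voi

theorem result (V : Type) [AddCommGroup V] [Module ℚ V] (C : CycleSystem V) (r : ℕ)
    (W : Fin r → Submodule ℚ V) (hW : ⨆ k, W k = ⊤) (g : Fin r → ℕ)
    (h : ∀ k, C.Alternates (W k) (g k + 1)) :
    ∀ n : ℕ, ∑ k, g k < n → C.Alternates ⊤ n :=
  fun _ hn => main C W hW g h hn

end Pool.Agent.Results.MP_83b46e_ag.SumsOfPieces
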